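import Pool.Agent.TH553.CZ.Exc

/-!
# At most one of the `L`-functions of pairwise disjoint motives vanishes at the edge

`V_j`, for `j` in a finite set `J`, are cohomology groups `Hⁱ(X_j)` of smooth projective varieties over a
number field `K` (`K = ℚ` in the problem; the varieties and the degrees may depend on `j`), or parts of
such groups, and `A_{j,v}`, for the primes `v` of good reduction, is a unitary matrix of size
`b_j = dim V_j` whose eigenvalues are `q_v^{-i/2}` times the eigenvalues of the Frobenius element at `v` on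
`V_j`; at the finitely many other primes `A_{j,v}` is any unitary matrix (this changes the functions below
by finitely many factors without zeros and poles in `Re s > 0`).  Then `L(V_j, s + i/2)` is the Euler
product of the `A_{j,v}`, and the edge of absolute convergence is the line `Re s = 1`, with the point
`s = 1` for the point `s₀` of the problem.

Suppose that the `L`-functions of `V_j ⊗ V̄_l` have meromorphic continuations to a neighbourhood of the one
point `s = 1`, with poles of orders `g_jl`.  (One expects that `g_jl = dim Hom(V_l, V_j)`; for irreducible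
`V_j`, no two of which are isomorphic, this is `1` for `j = l` and `0` for `j ≠ l`.)  The theorem says that
the orders `k_j` of the `L(V_j, s)` at any point of the edge satisfy
`(∑ w_j k_j)² ≤ ∑ ∑ w_j w_l g_jl` for all real `w_j`.  In particular, if all `g_jj` are at most `m` and
`g_jl ≤ 0` for `j ≠ l`, then at most `m` of the `L(V_j, s)` have a zero at this point.  So Q1 fails for at
most one `V` among the pairwise disjoint `V` for which `L(V ⊗ V̄, s)` has a simple pole.

This holds in the same way for all twists by complex numbers of absolute value one, and without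
continuations of the `L(V_j, s)`, for their rates of growth and decay.
-/

set_option autoImplicit false

namespace Pool.Agent.Results.MP_2b9663_nt.AtMostOneZero

open NumberField IsDedekindDomain Filter Topology ComplexConjugate
open scoped Kronecker

variable {K : Type} [Field K] [NumberField K] {a b : ℕ}

/-- The `L`-function `L(V ⊗ c, s) = ∏_v det(1 - q_v^{-s} c_v A_v)⁻¹`, for complex numbers `c_v` of absolute
value one. -/
noncomputable def LFun (A : HeightOneSpectrum (𝓞 K) → Matrix.unitaryGroup (Fin b) ℂ)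
    (c : HeightOneSpectrum (𝓞 K) → Circle) (s : ℂ) : ℂ :=
  ∏' v : HeightOneSpectrum (𝓞 K), (Matrix.det (1 - ((Ideal.absNorm v.asIdeal : ℂ) ^ (-s)) •
    ((c v : ℂ) • (A v : Matrix (Fin b) (Fin b) ℂ))))⁻¹

/-- The `L`-function `∏_v det(1 - q_v^{-s} A_v ⊗ B̄_v)⁻¹` of `V ⊗ W̄`. -/
noncomputable def LProduct (A : HeightOneSpectrum (𝓞 K) → Matrix.unitaryGroup (Fin a) ℂ)
    (B : HeightOneSpectrum (𝓞 K) → Matrix.unitaryGroup (Fin b) ℂ) (s : ℂ) : ℂ :=
  ∏' v : HeightOneSpectrum (𝓞 K), (Matrix.det (1 - ((Ideal.absNorm v.asIdeal : ℂ) ^ (-s)) •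
    ((A v : Matrix (Fin a) (Fin a) ℂ) ⊗ₖ (B v : Matrix (Fin b) (Fin b) ℂ).map conj)))⁻¹

/-- The function `L`, given in `Re s > 1`, has a meromorphic continuation to a neighbourhood of `s = 1`
of order `-m` at `s = 1` (a pole of order `m` if `m > 0`). -/
def HasPole (L : ℂ → ℂ) (m : ℤ) : Prop :=
  ∃ Λ : ℂ → ℂ, MeromorphicAt Λ 1 ∧ (∀ᶠ s in 𝓝 (1 : ℂ), (1 : ℝ) < s.re → Λ s = L s) ∧
    meromorphicOrderAt Λ 1 = ((-m : ℤ) : WithTop ℤ)

/-- `log |L(V ⊗ c, 1 + iτ + ε)| / log (1/ε)`. -/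
noncomputable def size (A : HeightOneSpectrum (𝓞 K) → Matrix.unitaryGroup (Fin b) ℂ)
    (c : HeightOneSpectrum (𝓞 K) → Circle) (τ ε : ℝ) : ℝ :=
  Real.log ‖LFun A c (1 + τ * Complex.I + ε)‖ / Real.log (1 / ε)

/-- `Λ` is a meromorphic continuation of `L(V ⊗ c, s)` to a neighbourhood of `1 + iτ`. -/
def IsContinuation (A : HeightOneSpectrum (𝓞 K) → Matrix.unitaryGroup (Fin b) ℂ)
    (c : HeightOneSpectrum (𝓞 K) → Circle) (τ : ℝ) (Λ : ℂ → ℂ) : Prop :=
  MeromorphicAt Λ (1 + τ * Complex.I) ∧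
    ∀ᶠ s in 𝓝 ((1 : ℂ) + τ * Complex.I), (1 : ℝ) < s.re → Λ s = LFun A c s

/-- **At most one of the `L`-functions of pairwise disjoint motives vanishes at the edge.**  Let `K` be a
number field and `A_{j,v}`, for `j` in a finite set `J` and the primes `v` of `K`, unitary matrices of
size `b_j`.  Suppose that the `L`-functions of all `V_j ⊗ V̄_l` have meromorphic continuations to a
neighbourhood of the point `s = 1`, of order `-g_jl` at this point.  For all complex numbers `c_v` of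
absolute value one and all `τ`:

I.  `L(V_j ⊗ c, 1 + iτ + ε) ≠ 0` for all small `ε > 0`, and the numbers
`X_j(ε) = log |L(V_j ⊗ c, 1 + iτ + ε)| / log (1/ε)` satisfy
`(∑ w_j X_j(ε))² ≤ ∑ ∑ w_j w_l g_jl + η` for all real `w_j`, all `η > 0` and all small `ε > 0`.

II.  If `L(V_j ⊗ c, s)` has a meromorphic continuation to a neighbourhood of `1 + iτ` for every `j`, then
these have orders `k_j` at `1 + iτ` with `(∑ w_j k_j)² ≤ ∑ ∑ w_j w_l g_jl` for all real `w_j`, and if
`g_jj ≤ m` for all `j` and `g_jl ≤ 0` for all `j ≠ l`, then at most `m` of them have a zero at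
`1 + iτ`. -/
theorem result (K : Type) [Field K] [NumberField K] (J : Type) [Fintype J] (b : J → ℕ)
    (A : ∀ j, HeightOneSpectrum (𝓞 K) → Matrix.unitaryGroup (Fin (b j)) ℂ) (g : J → J → ℤ)
    (h : ∀ j l, HasPole (LProduct (A j) (A l)) (g j l))
    (c : HeightOneSpectrum (𝓞 K) → Circle) (τ : ℝ) :
    ((∀ j, ∀ᶠ ε : ℝ in 𝓝[>] 0, LFun (A j) c (1 + τ * Complex.I + ε) ≠ 0) ∧
      ∀ (w : J → ℝ) (η : ℝ), 0 < η → ∀ᶠ ε : ℝ in 𝓝[>] 0,
        (∑ j, w j * size (A j) c τ ε) ^ 2 ≤ ∑ j, ∑ l, w j * w l * (g j l : ℝ) + η) ∧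
    ∀ Λ : J → ℂ → ℂ, (∀ j, IsContinuation (A j) c τ (Λ j)) → ∃ k : J → ℤ,
      (∀ j, meromorphicOrderAt (Λ j) (1 + τ * Complex.I) = k j) ∧
      (∀ w : J → ℝ, (∑ j, w j * (k j : ℝ)) ^ 2 ≤ ∑ j, ∑ l, w j * w l * (g j l : ℝ)) ∧
      ∀ m : ℕ, (∀ j, g j j ≤ m) → (∀ j l, j ≠ l → g j l ≤ 0) → {j | 0 < k j}.ncard ≤ m := by
  classical
  choose Λ₀ a1 a2 a3 using h
  have hsize : ∀ j, Pool.Agent.TH553.CZ.sU (Pool.Agent.TH553.CZ.tA (A j) c) τ = size (A j) c τ :=
    fun j => rfl
  have key : ∀ (w : J → ℝ) (η : ℝ), 0 < η → ∀ᶠ ε : ℝ in 𝓝[>] 0,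
      (∑ j, w j * size (A j) c τ ε) ^ 2 ≤ ∑ j, ∑ l, w j * w l * (g j l : ℝ) + η := by
    intro w η hη
    refine Pool.Agent.TH553.RS.eventually_of_ultra fun U hU => ?_
    have h1 := Pool.Agent.TH553.CZ.bessel_co (A := A) a1 a2 a3 c τ hU w
    have h2 : Tendsto (fun ε => (∑ j, w j * size (A j) c τ ε) ^ 2) U
        (𝓝 ((∑ j, w j * Pool.Agent.TH553.RS.M (Pool.Agent.W540.BE.nm K) U
          (Pool.Agent.TH553.CZ.co A c τ j)) ^ 2)) := by
      refine Tendsto.pow (tendsto_finsetSum _ fun j _ => ?_) 2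
      exact (Pool.Agent.TH553.CZ.size_co (A := A) c τ j hU).const_mul _
    filter_upwards [h2.eventually_lt_const (lt_of_le_of_lt h1 (lt_add_of_pos_right _ hη))] with ε h3
    exact h3.le
  refine ⟨⟨fun j => ?_, key⟩, fun Λ hΛ => ?_⟩
  · exact (Pool.Agent.TH553.CZ.size_LU (Pool.Agent.TH553.CZ.tA_unitary (A := A j) c) τ).1
  · have h1 : ∀ j, ∃ k : ℤ, meromorphicOrderAt (Λ j) (1 + τ * Complex.I) = k ∧
        Tendsto (size (A j) c τ) (𝓝[>] 0) (𝓝 (-(k : ℝ))) := fun j =>
      Pool.Agent.TH553.CZ.order_LU (Pool.Agent.TH553.CZ.tA_unitary (A := A j) c) (hΛ j).1 (hΛ j).2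
    choose k h2 h3 using h1
    have h4 : ∀ w : J → ℝ, (∑ j, w j * (k j : ℝ)) ^ 2 ≤ ∑ j, ∑ l, w j * w l * (g j l : ℝ) := by
      intro w
      refine le_of_forall_pos_le_add fun η hη => ?_
      have h5 : Tendsto (fun ε => (∑ j, w j * size (A j) c τ ε) ^ 2) (𝓝[>] 0)
          (𝓝 ((∑ j, w j * (-(k j : ℝ))) ^ 2)) :=
        Tendsto.pow (tendsto_finsetSum _ fun j _ => (h3 j).const_mul _) 2
      have h6 := le_of_tendsto h5 (key w η hη)
      have h7 : (∑ j, w j * (-(k j : ℝ))) ^ 2 = (∑ j, w j * (k j : ℝ)) ^ 2 := by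
        have : (∑ j, w j * (-(k j : ℝ))) = -∑ j, w j * (k j : ℝ) := by
          rw [← Finset.sum_neg_distrib]
          exact Finset.sum_congr rfl fun j _ => by ring
        rw [this, neg_sq]
      rwa [h7] at h6
    exact ⟨k, h2, h4, fun m hm hg => Pool.Agent.TH553.CZ.few_card k h4 m hm hg⟩

end Pool.Agent.Results.MP_2b9663_nt.AtMostOneZero
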