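import Pool.Agent.TH339.MP.V5
import Pool.Agent.TH339.MP.Y3

/-!
# How rarely L-functions of varieties are small (or large) on the edge of absolute convergence

Let `X` be a smooth projective variety over a number field `K` of degree `n`, let `0 ≤ i ≤ 2 dim X`, `N` the
`i`-th Betti number, `w = i` and `P_v(T) = det(1 - F_v T | H^i(X)^{I_v})`, read in the complex numbers.  The
Euler product `L(X, s)` converges for `Re s > 1 + w/2`; the problem asks that it have no zero at the real
point of the edge, whenever it continues there.  The theorem says, without any continuation, how rarely the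
boundary values on the edge are near zero or large, with the same absolute constant for all varieties and
all number fields.
-/

set_option autoImplicit false

namespace Pool.Agent.Results.MP_2b9663_nt.EdgeLargeDeviations

open Filter Topology MeasureTheory NumberField IsDedekindDomain Polynomial

section
variable {K : Type} [Field K] [NumberField K]

/-- `q_v`. -/
noncomputable def q (v : HeightOneSpectrum (𝓞 K)) : ℕ := Ideal.absNorm v.asIdeal

/-- The Euler product `L(s) = ∏_v P_v(q_v^{-s})⁻¹` over the primes `v` of `K`. -/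
noncomputable def L (P : HeightOneSpectrum (𝓞 K) → ℂ[X]) (s : ℂ) : ℂ :=
  ∏' v : HeightOneSpectrum (𝓞 K), ((P v).eval ((q v : ℂ) ^ (-s)))⁻¹

/-- The polynomials `P_v` have constant term `1`, degree at most `N`, and the inverses of their zeros
have absolute value at most `q_v^{w/2}`.  For `P_v = det(1 - F_v T | H^w(X)^{I_v})`, `X` smooth and
projective with `w`-th Betti number `N`, this is the theorem of Deligne at the primes of good reduction; at
the finitely many other primes one may put `P_v = 1`. -/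
structure HasWeights (P : HeightOneSpectrum (𝓞 K) → ℂ[X]) (N : ℕ) (w : ℤ) : Prop where
  coeff_zero : ∀ v, (P v).coeff 0 = 1
  natDegree_le : ∀ v, (P v).natDegree ≤ N
  le_norm : ∀ v, ∀ z : ℂ, (P v).IsRoot z → (q v : ℝ) ^ (-((w : ℝ) / 2)) ≤ ‖z‖

end

/-- The angle `|s - s₀| ≤ C Re(s - s₀)`, `Re s > Re s₀`. -/
def angle (s₀ : ℂ) (C : ℝ) : Set ℂ := {s : ℂ | s₀.re < s.re ∧ ‖s - s₀‖ ≤ C * (s - s₀).re}

/-- The upper Banach density of `Q` is at most `δ`: for every `ε > 0`, `Q` occupies at most the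
proportion `δ + ε` of all sufficiently long intervals. -/
def UpperBanachDensityLE (Q : Set ℝ) (δ : ℝ) : Prop :=
  ∀ ε : ℝ, 0 < ε → ∃ T₀ : ℝ, 0 < T₀ ∧ ∀ T : ℝ, T₀ ≤ T → ∀ a : ℝ,
    volume (Q ∩ Set.Icc a (a + T)) ≤ ENNReal.ofReal ((δ + ε) * T)

/-- **Large deviations on the edge.**  There is an absolute constant `c > 0` with the following
property.  Let `K` be a number field of degree `n`, `N ≥ 1`, and let the `P_v` have weight `w` and degree
at most `N`.  There is a measurable `l : ℝ → ℂ` such that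

* for all real `τ` outside a set of Hausdorff dimension `0`, `l(τ) ≠ 0` and `L(s) → l(τ)` as
  `s → 1 + w/2 + iτ` in any angle;
* for all `V > 0` with `V^{1/(nN)} ≥ 1/c` the set of all `τ` with `|l(τ)| ≥ V` or `|l(τ)| ≤ 1/V` has
  upper Banach density at most `2 exp(-exp(c V^{1/(nN)}))`. -/
theorem result : ∃ c : ℝ, 0 < c ∧ ∀ (K : Type) [Field K] [NumberField K] (N : ℕ), 1 ≤ N → ∀ (w : ℤ)
    (P : HeightOneSpectrum (𝓞 K) → ℂ[X]), HasWeights P N w →
    ∃ l : ℝ → ℂ, AEMeasurable l ∧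
      (∃ E : Set ℝ, dimH E = 0 ∧ ∀ τ : ℝ, τ ∉ E → l τ ≠ 0 ∧ ∀ C : ℝ,
        Tendsto (L P) (𝓝[angle (1 + (w : ℂ) / 2 + τ * Complex.I) C]
          (1 + (w : ℂ) / 2 + τ * Complex.I)) (𝓝 (l τ))) ∧
      ∀ V : ℝ, 0 < V → 1 / c ≤ V ^ (1 / ((Module.finrank ℚ K : ℝ) * N)) →
        UpperBanachDensityLE {τ : ℝ | V ≤ ‖l τ‖ ∨ ‖l τ‖ ≤ 1 / V}
          (2 * Real.exp (-Real.exp (c * V ^ (1 / ((Module.finrank ℚ K : ℝ) * N))))) := by
  obtain ⟨c, hc0, hc⟩ := Pool.Agent.TH339.MP.edge_tail
  refine ⟨c, hc0, fun K _ _ N hN w P hP => ?_⟩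
  obtain ⟨b, hb, hL⟩ := Pool.Agent.TH339.MP.hasProd_twist (K := K) (w : ℝ) P hP.coeff_zero
      hP.natDegree_le hP.le_norm
  have hL1 : ∀ s : ℂ, 1 + (w : ℝ) / 2 < s.re → L P s =
      Complex.exp (Pool.Agent.TH339.MP.FF b (s - (((w : ℝ) / 2 : ℝ) : ℂ))) := by
    intro s hs
    have h1 := (hL 1 s hs).tprod_eq
    rw [Pool.Agent.TH339.MP.tb_one] at h1
    rw [← h1]
    unfold L
    refine tprod_congr fun v => ?_
    have e : (Pool.Agent.TH339.MP.val 1 (Pool.Agent.TH339.MP.nm v)) = 1 :=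
      Pool.Agent.TH339.MP.val_one _
    rw [e, one_mul]
    rfl
  have hre : ∀ τ : ℝ, (1 + (w : ℂ) / 2 + τ * Complex.I).re = 1 + (w : ℝ) / 2 := by
    intro τ
    have e1 : (1 + (w : ℂ) / 2 + τ * Complex.I) =
        ((1 + (w : ℝ) / 2 : ℝ) : ℂ) + τ * Complex.I := by
      push_cast
      ring
    rw [e1]
    simp
  refine ⟨fun τ => Complex.exp (Pool.Agent.TH339.MP.bl b τ), ?_, ?_, ?_⟩
  · exact Complex.measurable_exp.comp_aemeasurable (Pool.Agent.TH339.MP.boundary hb).1
  · refine ⟨Pool.Agent.W350.Edge.divSet (Pool.Agent.TH339.MP.ap b),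
      (Pool.Agent.TH339.MP.boundary hb).2.1, fun τ hτ => ⟨Complex.exp_ne_zero _, fun C => ?_⟩⟩
    have h2 := Pool.Agent.TH339.MP.tendsto_angle hb hτ (w : ℝ) C
      (1 + (w : ℂ) / 2 + τ * Complex.I) (by push_cast; rfl)
    have h3 := (Complex.continuous_exp.tendsto _).comp h2
    refine h3.congr' ?_
    filter_upwards [self_mem_nhdsWithin] with s hs
    have h4 : (1 + (w : ℂ) / 2 + τ * Complex.I).re < s.re := hs.1
    rw [hre] at h4
    simp only [Function.comp_apply]
    rw [hL1 s h4]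
  · intro V hV hVc ε hε
    have hn : 1 ≤ Module.finrank ℚ K := Module.finrank_pos
    have hM : (1 : ℝ) ≤ (Module.finrank ℚ K : ℝ) * N := by
      have h1 : (1 : ℝ) ≤ (Module.finrank ℚ K : ℝ) := by exact_mod_cast hn
      have h2 : (1 : ℝ) ≤ (N : ℝ) := by exact_mod_cast hN
      nlinarith
    exact hc b _ hM hb V hV hVc ε hε

end Pool.Agent.Results.MP_2b9663_nt.EdgeLargeDeviations
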