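import Pool.Agent.TH553.CZ.Four

/-!
# Non-vanishing at the edge from the fourth tensor power

`X` is a smooth projective variety over a number field `K` (`K = ℚ` in the problem), `V = Hⁱ(X)`, and
`A_v`, for the primes `v` of good reduction, a unitary matrix of size `b = dim V` whose eigenvalues are
`q_v^{-i/2}` times the eigenvalues of the Frobenius element at `v` on `V`; at the finitely many other
primes `A_v` is any unitary matrix (this changes the functions below by finitely many factors without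
zeros and poles in `Re s > 0`).  Then `L(V, s + i/2)` is the Euler product of the `A_v`, and the edge of
absolute convergence is the line `Re s = 1`, with the point `s = 1` for the point `s₀` of the problem.

Suppose that the `L`-functions of `V ⊗ V̄` and `V ⊗ V̄ ⊗ V ⊗ V̄` have meromorphic continuations to a
neighbourhood of the one point `s = 1`, with poles of orders `m` and `m'`.  (For `V = Hⁱ(X)` the traces
are real and `V̄` is `V`.)  For an irreducible `V` of dimension at least two one expects `m = 1` and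
`m' ≥ 2`.  The theorem says that this alone implies that `L(V, s)`, and all its twists by arbitrary
complex numbers of absolute value one, for instance by Dirichlet characters, have neither zeros nor
poles on the whole edge (where they have local meromorphic continuations); in particular Q1 holds for
`X` and `i`.  In the other cases the orders `k` satisfy `k² ≤ m`, and `k² < m` if `m' > m² > 0`.

The classical argument for irreducible `V` does not apply at `s₀`: it leaves the possibility that the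
traces `tr A_v` are near `-1` for almost all `v`, and in order to exclude it one needs a continuation of
`L(V ⊗ V, s)` to the left of the edge.  Here it is excluded since it would give `m' = 1`.
-/

set_option autoImplicit false

namespace Pool.Agent.Results.MP_2b9663_nt.FourthTensorPower

open NumberField IsDedekindDomain Filter Topology ComplexConjugate
open scoped Kronecker

variable {K : Type} [Field K] [NumberField K] {b : ℕ}

/-- The average of `φ` over the primes of `K` of norm at most `N`. -/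
noncomputable def avg (φ : HeightOneSpectrum (𝓞 K) → ℂ) (N : ℕ) : ℂ :=
  (∑ᶠ v : {v : HeightOneSpectrum (𝓞 K) // Ideal.absNorm v.asIdeal ≤ N}, φ v.1) /
    (Nat.card {v : HeightOneSpectrum (𝓞 K) // Ideal.absNorm v.asIdeal ≤ N} : ℂ)

/-- The `L`-function `L(V ⊗ c, s) = ∏_v det(1 - q_v^{-s} c_v A_v)⁻¹`, for complex numbers `c_v` of absolute
value one. -/
noncomputable def LFun (A : HeightOneSpectrum (𝓞 K) → Matrix.unitaryGroup (Fin b) ℂ)
    (c : HeightOneSpectrum (𝓞 K) → Circle) (s : ℂ) : ℂ :=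
  ∏' v : HeightOneSpectrum (𝓞 K), (Matrix.det (1 - ((Ideal.absNorm v.asIdeal : ℂ) ^ (-s)) •
    ((c v : ℂ) • (A v : Matrix (Fin b) (Fin b) ℂ))))⁻¹

/-- The matrix `A ⊗ Ā`. -/
noncomputable def square (A : Matrix (Fin b) (Fin b) ℂ) :
    Matrix (Fin b × Fin b) (Fin b × Fin b) ℂ := A ⊗ₖ A.map conj

/-- The `L`-function `∏_v det(1 - q_v^{-s} A_v ⊗ Ā_v)⁻¹` of `V ⊗ V̄`. -/
noncomputable def LSquare (A : HeightOneSpectrum (𝓞 K) → Matrix.unitaryGroup (Fin b) ℂ) (s : ℂ) :
    ℂ :=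
  ∏' v : HeightOneSpectrum (𝓞 K), (Matrix.det (1 - ((Ideal.absNorm v.asIdeal : ℂ) ^ (-s)) •
    square (A v : Matrix (Fin b) (Fin b) ℂ)))⁻¹

/-- The `L`-function `∏_v det(1 - q_v^{-s} A_v ⊗ Ā_v ⊗ A_v ⊗ Ā_v)⁻¹` of `V ⊗ V̄ ⊗ V ⊗ V̄`. -/
noncomputable def LFourth (A : HeightOneSpectrum (𝓞 K) → Matrix.unitaryGroup (Fin b) ℂ) (s : ℂ) :
    ℂ :=
  ∏' v : HeightOneSpectrum (𝓞 K), (Matrix.det (1 - ((Ideal.absNorm v.asIdeal : ℂ) ^ (-s)) •
    (square (A v : Matrix (Fin b) (Fin b) ℂ) ⊗ₖ square (A v : Matrix (Fin b) (Fin b) ℂ))))⁻¹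

/-- The function `L`, given in `Re s > 1`, has a meromorphic continuation to a neighbourhood of `s = 1`
of order `-m` at `s = 1` (a pole of order `m` if `m > 0`). -/
def HasPole (L : ℂ → ℂ) (m : ℤ) : Prop :=
  ∃ Λ : ℂ → ℂ, MeromorphicAt Λ 1 ∧ (∀ᶠ s in 𝓝 (1 : ℂ), (1 : ℝ) < s.re → Λ s = L s) ∧
    meromorphicOrderAt Λ 1 = ((-m : ℤ) : WithTop ℤ)

/-- The number `√m - (m' - m²) / (2 √m (b + √m)²)`; it is `0` if `m = 0`. -/
noncomputable def bound (b : ℕ) (m m' : ℤ) : ℝ :=
  √m - ((m' : ℝ) - (m : ℝ) ^ 2) / (2 * √m * (b + √m) ^ 2)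

/-- `log |L(V ⊗ c, 1 + iτ + ε)| / log (1/ε)`. -/
noncomputable def size (A : HeightOneSpectrum (𝓞 K) → Matrix.unitaryGroup (Fin b) ℂ)
    (c : HeightOneSpectrum (𝓞 K) → Circle) (τ ε : ℝ) : ℝ :=
  Real.log ‖LFun A c (1 + τ * Complex.I + ε)‖ / Real.log (1 / ε)

/-- `Λ` is a meromorphic continuation of `L(V ⊗ c, s)` to a neighbourhood of `1 + iτ`. -/
def IsContinuation (A : HeightOneSpectrum (𝓞 K) → Matrix.unitaryGroup (Fin b) ℂ)
    (c : HeightOneSpectrum (𝓞 K) → Circle) (τ : ℝ) (Λ : ℂ → ℂ) : Prop :=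
  MeromorphicAt Λ (1 + τ * Complex.I) ∧
    ∀ᶠ s in 𝓝 ((1 : ℂ) + τ * Complex.I), (1 : ℝ) < s.re → Λ s = LFun A c s

section Bridge

open Pool.Agent.TH553.ST Pool.Agent.TH553.RS Pool.Agent.W540.BE Pool.Agent.TH553.CZ

theorem avg_eq (g : HeightOneSpectrum (𝓞 K) → ℂ) : avg g = mn g := by
  funext N
  have hs : ∀ v, v ∈ upto K N ↔ Ideal.absNorm v.asIdeal ≤ N := fun v => mem_upto
  let e : {v : HeightOneSpectrum (𝓞 K) // Ideal.absNorm v.asIdeal ≤ N} ≃ (upto K N) :=
    Equiv.subtypeEquivRight fun v => (hs v).symm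
  have hfin : Finite {v : HeightOneSpectrum (𝓞 K) // Ideal.absNorm v.asIdeal ≤ N} :=
    Finite.of_equiv _ e.symm
  unfold avg mn
  have h1 : (∑ᶠ v : {v : HeightOneSpectrum (𝓞 K) // Ideal.absNorm v.asIdeal ≤ N}, g v.1) =
      ∑ v ∈ upto K N, g v := by
    rw [← Finset.sum_coe_sort, ← finsum_eq_sum_of_fintype, ← finsum_comp_equiv e]
    rfl
  have h2 : Nat.card {v : HeightOneSpectrum (𝓞 K) // Ideal.absNorm v.asIdeal ≤ N} =
      (upto K N).card := by
    rw [Nat.card_congr e, Nat.card_eq_fintype_card, Fintype.card_coe]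
  rw [h1, h2, Complex.real_smul, div_eq_inv_mul]
  push_cast
  rfl

theorem LFun_eq (A : HeightOneSpectrum (𝓞 K) → Matrix.unitaryGroup (Fin b) ℂ)
    (c : HeightOneSpectrum (𝓞 K) → Circle) : LFun A c = LU (tA A c) := rfl

end Bridge

/-- **Non-vanishing at the edge from the fourth tensor power.**  Let `K` be a number field and `A_v`
unitary matrices of size `b` for the primes `v` of `K`.  Suppose that the `L`-functions of `V ⊗ V̄` and
of `V ⊗ V̄ ⊗ V ⊗ V̄` have meromorphic continuations to a neighbourhood of the point `s = 1`, of the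
orders `-m` and `-m'` at this point.  Then `m ≥ 0`, `m' ≥ m²`, and if `m > 0` and `m' > m²`, then
`bound b m m' < √m`.  For all complex numbers `c_v` of absolute value one:

I.  For every `τ`: `L(V ⊗ c, 1 + iτ + ε) ≠ 0` and
`|log |L(V ⊗ c, 1 + iτ + ε)|| ≤ (bound b m m' + η) log (1/ε)` for all `η > 0` and all small `ε > 0`, and
every meromorphic continuation of `L(V ⊗ c, s)` to a neighbourhood of `1 + iτ` has an order `k` at
`1 + iτ` with `|k| ≤ bound b m m'`.

II.  If `m = 1` and `m' ≥ 2`, then all these orders are `0`, and if for every `τ` there is a meromorphic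
continuation of `L(V ⊗ c, s)` to a neighbourhood of `1 + iτ`, then the averages of `c_v tr A_v` tend to
`0`. -/
theorem result (K : Type) [Field K] [NumberField K] (b : ℕ)
    (A : HeightOneSpectrum (𝓞 K) → Matrix.unitaryGroup (Fin b) ℂ) (m m' : ℤ)
    (h2 : HasPole (LSquare A) m) (h4 : HasPole (LFourth A) m') :
    0 ≤ m ∧ m ^ 2 ≤ m' ∧ (0 < m → m ^ 2 < m' → bound b m m' < √m) ∧
    ∀ c : HeightOneSpectrum (𝓞 K) → Circle,
      (∀ τ : ℝ, (∀ᶠ ε : ℝ in 𝓝[>] 0, LFun A c (1 + τ * Complex.I + ε) ≠ 0) ∧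
        (∀ η : ℝ, 0 < η → ∀ᶠ ε : ℝ in 𝓝[>] 0, |size A c τ ε| ≤ bound b m m' + η) ∧
        ∀ Λ : ℂ → ℂ, IsContinuation A c τ Λ → ∃ k : ℤ,
          meromorphicOrderAt Λ (1 + τ * Complex.I) = k ∧ |(k : ℝ)| ≤ bound b m m') ∧
      (m = 1 → 2 ≤ m' →
        (∀ (τ : ℝ) (Λ : ℂ → ℂ), IsContinuation A c τ Λ →
          meromorphicOrderAt Λ (1 + τ * Complex.I) = 0) ∧
        ((∀ τ : ℝ, ∃ Λ, IsContinuation A c τ Λ) →
          Tendsto (avg fun v => c v * (A v : Matrix (Fin b) (Fin b) ℂ).trace) atTop (𝓝 0))) := by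
  obtain ⟨Λ₂, a1, a2, a3⟩ := h2
  obtain ⟨Λ₄, b1, b2, b3⟩ := h4
  obtain ⟨hm, hmm, hM⟩ := Pool.Agent.TH553.CZ.mean_bnd (A := A) a1 a2 a3 b1 b2 b3
  have key : ∀ (c : HeightOneSpectrum (𝓞 K) → Circle) (τ : ℝ) (Λ : ℂ → ℂ),
      IsContinuation A c τ Λ → ∃ k : ℤ,
        meromorphicOrderAt Λ (1 + τ * Complex.I) = k ∧ |(k : ℝ)| ≤ bound b m m' := by
    intro c τ Λ hΛ
    exact Pool.Agent.TH553.CZ.order_tA (A := A) (c := c) (τ := τ) hM hΛ.1 hΛ.2
  refine ⟨hm, hmm, fun h1 h2 => Pool.Agent.TH553.CZ.bnd_lt h1 h2, fun c => ⟨fun τ => ⟨?_, ?_, key c τ⟩,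
    fun hm1 hm2 => ?_⟩⟩
  · exact (Pool.Agent.TH553.CZ.size_LU (Pool.Agent.TH553.CZ.tA_unitary (A := A) c) τ).1
  · intro η hη
    exact Pool.Agent.TH553.CZ.size_tA (A := A) (c := c) (τ := τ) hM hη
  · have hlt : bound b m m' < 1 := by
      have h5 := Pool.Agent.TH553.CZ.bnd_lt (b := b) (m := m) (m' := m') (by omega)
        (by rw [hm1]; omega)
      have h6 : √(m : ℝ) = 1 := by rw [hm1]; simp
      rw [h6] at h5
      exact h5
    have hzero : ∀ (τ : ℝ) (Λ : ℂ → ℂ), IsContinuation A c τ Λ →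
        meromorphicOrderAt Λ (1 + τ * Complex.I) = 0 := by
      intro τ Λ hΛ
      obtain ⟨k, h5, h6⟩ := key c τ Λ hΛ
      have h7 : |(k : ℝ)| < 1 := lt_of_le_of_lt h6 hlt
      have h8 : |k| < 1 := by exact_mod_cast h7
      rw [h5, Int.abs_lt_one_iff.1 h8]
      rfl
    refine ⟨hzero, fun hcont => ?_⟩
    rw [avg_eq]
    have h9 := Pool.Agent.TH553.CZ.avg_LU (Pool.Agent.TH553.CZ.tA_unitary (A := A) c) fun τ => by
      obtain ⟨Λ, hΛ⟩ := hcont τ
      exact ⟨Λ, hΛ.1, hΛ.2, hzero τ Λ hΛ⟩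
    refine h9.congr fun N => ?_
    congr 1
    funext v
    exact Pool.Agent.TH553.CZ.trace_tA c v

end Pool.Agent.Results.MP_2b9663_nt.FourthTensorPower
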