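import Pool.Agent.TH129.RS.Main

/-!
# The order of the pole of `L(H^i ⊗ H^i)` bounds the zeros on the edge

`X` is a smooth projective variety over a number field `K` (the problem is the case `K = ℚ`), `i` an
integer, `N` the `i`-th Betti number and `s₀ = i/2 + 1`.  The only hypothesis is that `L(H^i(X) ⊗ H^i(X), s)`
has a meromorphic continuation to a neighbourhood of the single point `i + 1`; let `n` be the order of its
pole there.  For irreducible `H^i(X)` one expects `n = 1`.

* The squares of the orders of all Artin twists of `L(H^i(X), s)` on the whole edge line have the sum at
  most `n` (`OrderInequality`, a Bessel inequality; twists that are not self-dual count twice).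
* If there is equality for one twist by `ρ`, with the order `m`, then `|m| dim ρ ≤ N`, and the orders of all
  other twists are known (`Rigidity`).
* If the sum of the squares of the orders of finitely many twists is `n`, the normalised traces are close to
  `-∑ m_k χ_k(σ_v⁻¹) q_v^{-iτ_k}` outside of a set of primes of Dirichlet density zero (`Concentration`).
* If there is equality for `L(H^i(X), s)` itself at `s₀`, that is, `m² = n` for its order `m` at `s₀`, then
  `L(H^i(X), s)` is `ζ_K(s - i/2)^{-m}` times an Euler product that converges for `Re s > s₀ - δ`, for some
  `δ > 0`, and has no zeros there, and the same is true, with the same `δ`, after a twist with any family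
  of unit numbers; the normalised traces are close to `-m` with a power saving (`EqualityCase`).  The
  proof is by the lemma of Landau, for the series with the coefficients `(p_k(v) + m)² / k ≥ 0` at
  `q_v^{-ks}`, `p_k(v)` the power sums of the normalised eigenvalues: its logarithmic singularity at
  the edge has the coefficient `n + 2m(-m) + m² = 0`.
* For `n = 1` this gives that at most one twist has a zero or a pole anywhere on the edge line, and that it
  is a twist by a representation of dimension at most `N` (`AtMostOne`), and criteria for
  `L(H^i(X), s₀) ≠ 0` (`NonVanishing`).  There is no zero and no pole at all, for no irreducible Artin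
  representation and at no point of the edge line, unless the normalised traces concentrate at finitely
  many real numbers, in the sense of Dirichlet density (`NoZeros`).

The definitions are in `Pool.Agent.TH129.RS.Defs`.
-/

set_option autoImplicit false

namespace Pool.Agent.Results.MP_2b9663_nt.RankinSelbergInequality

open NumberField Pool.Agent.TH129.RS

/-- **The order of the pole of `L(H^i ⊗ H^i)` bounds the zeros on the edge.**  Let `X` be a smooth
projective variety of dimension `d` over a number field `K`, `0 ≤ i ≤ 2d`, `N` the `i`-th Betti number, and
suppose that `L(H^i(X) ⊗ H^i(X), s)` has a meromorphic continuation to a neighbourhood of the point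
`i + 1`, with a pole of order `n` there.

Then `∑ m_k² ≤ n` for the orders `m_k` of the `L`-functions `L(H^i(X) ⊗ ρ_k, s)` at `i/2 + 1 + iτ_k`, for all
finite sets of different pairs of an irreducible Artin representation `ρ_k` and a real number `τ_k`, with
the bound `|m_k| dim ρ_k ≤ N` and a description of all orders if `m_k² = n` for one `k`, with the limit of
the normalised traces if `∑ m_k² = n`, and with a description of the `L`-functions to the left of the edge
if `m² = n` for the order `m` of `L(H^i(X), s)` at `i/2 + 1`.

If `n = 1`, at most one of all these orders is different from zero, it belongs to a representation of
dimension at most `N`, and `L(H^i(X), s)` does not vanish at `i/2 + 1` if one other twist has a zero or a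
pole, or if for one number field `F ⊇ K` the order of `L(H^i(X_F), s)` is not `1`, or if the
normalised traces of Frobenius are not close to `-1` with a power saving; and all these orders are zero if
the normalised traces are not concentrated at finitely many numbers. -/
theorem result {K : Type} [Field K] [NumberField K] {l : ℕ} (X : Set (MvPolynomial (Fin l) (𝓞 K)))
    (d i N : ℕ) (hi : i ≤ 2 * d) (n : ℤ) (hn : SquarePole X d i N n) :
    OrderInequality X d i N n ∧ Concentration X d i N n ∧ Rigidity X d i N n ∧
      EqualityCase X d i N n ∧
      (n = 1 → AtMostOne X d i N ∧ NonVanishing X d i N ∧ NoZeros X d i N) := by
  refine ⟨orderInequality hi hn, concentration hi hn, rigidity hi hn, equalityCase hi hn,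
    fun h => ?_⟩
  subst h
  exact ⟨atMostOne hi hn, nonVanishing hi hn, noZeros hi hn⟩

end Pool.Agent.Results.MP_2b9663_nt.RankinSelbergInequality
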